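import Pool.Agent.V11276.PE8

namespace Pool.Agent.Results.MP_bb668a_an.IntrinsicallyErgodic

open MeasureTheory Filter Topology Finset Pool.Agent.V11276

/-- the random period doubling substitution `ϑ(a) = {ab, ba}`, `ϑ(b) = {aa}`; the letters are `a = false`, `b = true` -/
def sub : Bool → Set (List Bool)
  | false => {[false, true], [true, false]}
  | true => {[false, false]}

/-- `ϑ` on words: a concatenation of members of `ϑ(w₁), ϑ(w₂), …`, chosen independently -/
def subWord (w : List Bool) : Set (List Bool) :=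
  {u | ∃ L : List (List Bool), List.Forall₂ (fun c v => v ∈ sub c) w L ∧ u = L.flatten}

/-- `ϑ^n(c)` -/
def iter : ℕ → Bool → Set (List Bool)
  | 0, c => {[c]}
  | n + 1, c => {u | ∃ w ∈ iter n c, u ∈ subWord w}

/-- a word is legal if it is a subword of a member of some `ϑ^n(c)`, `n ≥ 1` -/
def Legal (v : List Bool) : Prop := ∃ n ≥ 1, ∃ c, ∃ w ∈ iter n c, v <:+: w

/-- the subshift `X_ϑ` -/
def X : Set (ℤ → Bool) := {x | ∀ (i : ℤ) (l : ℕ), Legal (List.ofFn fun k : Fin l => x (i + (k : ℕ)))}

/-- the left shift -/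
def shift (x : ℤ → Bool) : ℤ → Bool := fun i => x (i + 1)

/-- shift invariant Borel probability measures on `X_ϑ` -/
structure Invariant (ν : Measure (ℤ → Bool)) : Prop where
  prob : IsProbabilityMeasure ν
  supp : ν Xᶜ = 0
  inv : ν.map shift = ν

/-- the cylinder of the word `w`, placed at position `0` -/
def cyl {n : ℕ} (w : Fin n → Bool) : Set (ℤ → Bool) := {x | ∀ k : Fin n, x ((k : ℕ) : ℤ) = w k}

/-- Shannon entropy of the law of `x₀ … x_{n-1}` -/
noncomputable def blockEntropy (ν : Measure (ℤ → Bool)) (n : ℕ) : ℝ :=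
  ∑ w : Fin n → Bool, Real.negMulLog (ν.real (cyl w))

/-- the entropy `h(ν) = lim H_n(ν) / n` (the theorem below states that the limit exists) -/
noncomputable def entropy (ν : Measure (ℤ → Bool)) : ℝ := limsup (fun n : ℕ => blockEntropy ν n / n) atTop

lemma mem_subWord {w u : List Bool} (h : u ∈ subWord w) : u.length = 2 * w.length ∧
    ∀ i < w.length, PE.ok (w.getD i false) (u.getD (2 * i) false) (u.getD (2 * i + 1) false) := by
  obtain ⟨L, hL, rfl⟩ := h
  induction hL with
  | nil => simp
  | @cons c v w L hcv _ ih =>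
    obtain ⟨p, q, rfl, hok⟩ : ∃ p q, v = [p, q] ∧ PE.ok c p q := by
      cases c
      · rcases hcv with h | h
        · exact ⟨false, true, h, by simp [PE.ok]⟩
        · exact ⟨true, false, h, by simp [PE.ok]⟩
      · exact ⟨false, false, hcv, by simp [PE.ok]⟩
    constructor
    · simp [ih.1]; ring
    · intro i hi
      cases i with
      | zero => simpa using hok
      | succ i =>
        have := ih.2 i (by simpa using hi)
        have e1 : 2 * (i + 1) = 2 * i + 1 + 1 := by ring
        have e2 : 2 * (i + 1) + 1 = (2 * i + 1) + 1 + 1 := by ring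
        rw [e2, e1]
        simpa using this

lemma iter_Re {n : ℕ} {c : Bool} {w : List Bool} (h : w ∈ iter n c) :
    w.length = 2 ^ n ∧ PE.Re n c (fun t => w.getD t false) := by
  induction n generalizing w with
  | zero =>
    have : w = [c] := h
    subst this
    exact ⟨rfl, rfl⟩
  | succ n ih =>
    obtain ⟨w', hw', hu⟩ := h
    obtain ⟨h1, h2⟩ := ih hw'
    obtain ⟨h3, h4⟩ := mem_subWord hu
    refine ⟨by rw [h3, h1, pow_succ]; ring, fun t => w'.getD t false, h2, fun i hi => h4 i (by rw [h1]; exact hi)⟩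

/-- words from functions -/
def wd (u : ℕ → Bool) (n : ℕ) : List Bool := (List.range n).map u

lemma wd_sub (u' u : ℕ → Bool) (N : ℕ) (h : ∀ i < N, PE.ok (u' i) (u (2 * i)) (u (2 * i + 1))) :
    wd u (2 * N) ∈ subWord (wd u' N) := by
  refine ⟨(List.range N).map (fun i => [u (2 * i), u (2 * i + 1)]), ?_, ?_⟩
  · unfold wd
    rw [List.forall₂_map_left_iff, List.forall₂_map_right_iff, List.forall₂_same]
    intro i hi
    have hok := h i (List.mem_range.mp hi)
    revert hok
    cases u' i <;> cases u (2 * i) <;> cases u (2 * i + 1) <;> simp [PE.ok, sub]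
  · clear h
    induction N with
    | zero => rfl
    | succ N ih =>
      have e : 2 * (N + 1) = 2 * N + 1 + 1 := by ring
      unfold wd at ih ⊢
      rw [e, List.range_succ, List.range_succ, List.map_append, List.map_append, ih, List.range_succ, List.map_append,
        List.flatten_append]
      simp

lemma Re_iter {n : ℕ} {c : Bool} {u : ℕ → Bool} (h : PE.Re n c u) : wd u (2 ^ n) ∈ iter n c := by
  induction n generalizing u with
  | zero =>
    have : u 0 = c := h
    subst this
    rfl
  | succ n ih =>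
    obtain ⟨u', h1, h2⟩ := h
    refine ⟨wd u' (2 ^ n), ih h1, ?_⟩
    have e : 2 ^ (n + 1) = 2 * 2 ^ n := by rw [pow_succ]; ring
    rw [e]
    exact wd_sub u' u _ h2

lemma ofFn_wd (v : ℕ → Bool) (l : ℕ) : (List.ofFn fun k : Fin l => v k) = wd v l := by
  unfold wd
  apply List.ext_getElem
  · simp
  · intro i h1 h2
    simp

lemma wd_infix (u : ℕ → Bool) (p l N : ℕ) (h : p + l ≤ N) : wd (fun k => u (p + k)) l <:+: wd u N := by
  obtain ⟨r, rfl⟩ := Nat.exists_eq_add_of_le h
  refine ⟨wd u p, wd (fun k => u (p + l + k)) r, ?_⟩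
  unfold wd
  rw [List.range_add, List.range_add, List.map_append, List.map_append, List.map_map, List.map_map]
  rfl

lemma legal_iff (v : ℕ → Bool) (l : ℕ) : Legal (List.ofFn fun k : Fin l => v k) ↔ PE.Leg v l := by
  constructor
  · rintro ⟨n, -, c, w, hw, s, t, hst⟩
    obtain ⟨h1, h2⟩ := iter_Re hw
    refine ⟨n, c, _, s.length, h2, ?_, ?_⟩
    · rw [← h1, ← hst]; simp
    · intro k hk
      show v k = w.getD (s.length + k) false
      rw [← hst, List.append_assoc, List.getD_append_right _ _ _ _ (by omega)]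
      have e : s.length + k - s.length = k := by omega
      rw [e, List.getD_append _ _ _ _ (by simpa using hk)]
      simp [List.getD, hk]
  · rintro ⟨n, c, u, p, h1, h2, h3⟩
    have e : (List.ofFn fun k : Fin l => v k) = wd (fun k => u (p + k)) l := by
      rw [ofFn_wd]
      unfold wd
      apply List.map_congr_left
      intro k hk
      exact h3 k (List.mem_range.mp hk)
    rw [e]
    cases n with
    | zero =>
      refine ⟨1, le_rfl, false, [false, true], ⟨[false], rfl, [[false, true]], ?_, rfl⟩, ?_⟩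
      · refine List.Forall₂.cons ?_ List.Forall₂.nil
        left; rfl
      · have hl : l = 0 ∨ l = 1 := by simp at h2; omega
        rcases hl with rfl | rfl
        · exact ⟨[], [false, true], rfl⟩
        · show [u (p + 0)] <:+: [false, true]
          cases u (p + 0)
          · exact ⟨[], [true], rfl⟩
          · exact ⟨[false], [], rfl⟩
    | succ n => exact ⟨n + 1, by omega, c, _, Re_iter h1, wd_infix u p l _ h2⟩

lemma X_eq : X = PE.X := by
  ext x
  exact forall_congr' fun i => forall_congr' fun l => legal_iff (fun k => x (i + k)) l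

lemma inv_iff (ν : Measure (ℤ → Bool)) : Invariant ν ↔ PE.Inv ν := by
  constructor
  · intro h; exact ⟨h.prob, by rw [← X_eq]; exact h.supp, h.inv⟩
  · intro h; exact ⟨h.prob, by rw [X_eq]; exact h.supp, h.inv⟩

lemma block_eq (ν : Measure (ℤ → Bool)) (n : ℕ) : blockEntropy ν n = PE.Hm ν (PE.win 0 n) := by
  rw [PE.Hm_negMulLog]
  apply sum_congr rfl
  intro w _
  have : cyl w = PE.win 0 n ⁻¹' {w} := by
    ext x
    show (∀ k : Fin n, x ((k : ℕ) : ℤ) = w k) ↔ PE.win 0 n x = w
    rw [funext_iff]
    refine forall_congr' fun k => ?_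
    show _ ↔ x (0 + ((k : ℕ) : ℤ)) = w k
    rw [zero_add]
  rw [this]
  rfl

lemma entropy_eq (ν : Measure (ℤ → Bool)) : entropy ν = PE.ent ν := by
  unfold entropy PE.ent
  simp_rw [block_eq]

/-- The random period doubling subshift is intrinsically ergodic. -/
theorem result :
    -- the entropy of every invariant measure is a genuine limit, at most `(2/3) log 2`
    (∀ ν, Invariant ν → Tendsto (fun n : ℕ => blockEntropy ν n / n) atTop (𝓝 (entropy ν)) ∧
      entropy ν ≤ 2 / 3 * Real.log 2) ∧
    -- exactly one invariant measure has maximal entropy, and its entropy is `(2/3) log 2`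
    (∃ μ, (Invariant μ ∧ ∀ ν, Invariant ν → entropy ν ≤ entropy μ) ∧ entropy μ = 2 / 3 * Real.log 2 ∧
      ∀ ν, (Invariant ν ∧ ∀ ν', Invariant ν' → entropy ν' ≤ entropy ν) → ν = μ) := by
  refine ⟨fun ν hν => ?_, ?_⟩
  · have h := (inv_iff ν).mp hν
    refine ⟨?_, ?_⟩
    · rw [entropy_eq]
      simp_rw [block_eq]
      exact (PE.ent_spec h).1
    · rw [entropy_eq]; exact PE.ent_le h
  · obtain ⟨μ, hμ, hmax⟩ := PE.exists_max
    have hμe : entropy μ = 2 / 3 * Real.log 2 := by
      rw [entropy_eq]; exact le_antisymm (PE.ent_le hμ) hmax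
    refine ⟨μ, ⟨(inv_iff μ).mpr hμ, fun ν hν => ?_⟩, hμe, ?_⟩
    · rw [hμe, entropy_eq]; exact PE.ent_le ((inv_iff ν).mp hν)
    · rintro ν ⟨hν, hνm⟩
      refine PE.uniq ((inv_iff ν).mp hν) hμ ?_ hmax
      have := hνm μ ((inv_iff μ).mpr hμ)
      rw [hμe, entropy_eq] at this
      exact this

end Pool.Agent.Results.MP_bb668a_an.IntrinsicallyErgodic
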